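import Pool.Agent.Q23.OS.Stm

/-! # Project OS, job NEG -/

set_option autoImplicit false

namespace Pool.Agent.Q154.OS

open Pool.Agent.Q23.OS Matrix

theorem one_ne_neg_one : (1 : Matrix (Fin 3 ⊕ Fin 3) (Fin 3 ⊕ Fin 3) (ZMod 5)) ≠ -1 := by
  intro h
  have h1 := congrFun (congrFun h (Sum.inl 0)) (Sum.inl 0)
  rw [Matrix.one_apply_eq, Matrix.neg_apply, Matrix.one_apply_eq] at h1
  exact absurd h1 (by decide)

/-- the element `-1` -/
def neg1 : Sp6 := ⟨-1, SymplecticGroup.neg_mem (one_mem _)⟩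

theorem card_Z6 : Nat.card Z6 = 2 := by
  have hneg : neg1 ∈ Z6 := by
    right
    rfl
  rw [Nat.card_eq_two_iff]
  refine ⟨1, ⟨neg1, hneg⟩, ?_, ?_⟩
  · intro h
    have h1 := congrArg (fun z : Z6 => z.1.1) h
    exact one_ne_neg_one h1
  · apply Set.eq_univ_of_forall
    rintro ⟨g, hg⟩
    rcases hg with hg | hg
    · left
      exact Subtype.ext (Subtype.ext hg)
    · right
      exact Subtype.ext (Subtype.ext hg)

theorem task_NEG : Pool.Agent.Q23.OS.S_NEG := by
  unfold S_NEG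
  rw [Subgroup.card_eq_card_quotient_mul_card_subgroup Z6, card_Z6, Nat.mul_comm]

end Pool.Agent.Q154.OS
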